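import Mathlib

/-!
The least order of a finite abelian group containing `n` elements with unique multiset sums is
exactly `2 ^ (n - 1)`.

Lower bound: write `n = m + 1`. The map sending `T ⊆ {1, …, m}` to `∑ i ∈ T, (g i - g 0)` is
injective: if `T ≠ T'` have the same image and `|T'| ≤ |T|`, then the multiplicities
`k i = 1 + 1_{T'} i - 1_T i` (for `i ≥ 1`) and `k 0 = 1 + |T| - |T'|` give a second multiset.
-/

namespace Pool.Agent.Results.MP_6623a1_co.ExactOrder

open Finset

/-- The family `g` has unique multiset sums: the only vector `k` of nonnegative integers with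
`∑ k j = n` and `∑ k j • g j = ∑ g j` is the all-ones vector. -/
def UniqueMultisetSums {G : Type} [AddCommGroup G] {n : ℕ} (g : Fin n → G) : Prop :=
  ∀ k : Fin n → ℕ, ∑ j, k j = n → ∑ j, k j • g j = ∑ j, g j → k = fun _ => 1

theorem inj_aux {G : Type} [AddCommGroup G] {m : ℕ} (g : Fin (m + 1) → G)
    (hg : UniqueMultisetSums g) (T T' : Finset (Fin m)) (hc : T'.card ≤ T.card)
    (h : ∑ i ∈ T, (g i.succ - g 0) = ∑ i ∈ T', (g i.succ - g 0)) : T = T' := by
  classical
  set k : Fin (m + 1) → ℕ := Fin.cons (1 + (T.card - T'.card))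
    (fun i => (if i ∈ T then 0 else 1) + (if i ∈ T' then 1 else 0)) with hk
  have hT : ∑ i : Fin m, (if i ∈ T then 0 else 1) + T.card = m := by
    have h1 : T.card = ∑ i : Fin m, (if i ∈ T then 1 else 0) := by simp
    rw [h1, ← Finset.sum_add_distrib]
    have : ∀ i : Fin m, ((if i ∈ T then 0 else 1) + (if i ∈ T then 1 else 0) : ℕ) = 1 := by
      intro i; split_ifs <;> rfl
    simp [this]
  have hT' : ∑ i : Fin m, (if i ∈ T' then 1 else 0) = T'.card := by simp
  have hsum : ∑ j, k j = m + 1 := by
    rw [Fin.sum_univ_succ]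
    simp only [hk, Fin.cons_zero, Fin.cons_succ]
    rw [Finset.sum_add_distrib, hT']
    omega
  have hA : ∑ i : Fin m, (if i ∈ T then 0 else 1 : ℕ) • g i.succ + ∑ i ∈ T, g i.succ
      = ∑ i : Fin m, g i.succ := by
    have h1 : ∑ i ∈ T, g i.succ = ∑ i : Fin m, (if i ∈ T then g i.succ else 0) := by
      simp [Finset.sum_ite_mem]
    rw [h1, ← Finset.sum_add_distrib]
    refine Finset.sum_congr rfl (fun i _ => ?_)
    split_ifs <;> simp
  have hB : ∑ i : Fin m, (if i ∈ T' then 1 else 0 : ℕ) • g i.succ = ∑ i ∈ T', g i.succ := by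
    have h1 : ∑ i ∈ T', g i.succ = ∑ i : Fin m, (if i ∈ T' then g i.succ else 0) := by
      simp [Finset.sum_ite_mem]
    rw [h1]
    refine Finset.sum_congr rfl (fun i _ => ?_)
    split_ifs <;> simp
  have hG : ∑ j, k j • g j = ∑ j, g j := by
    rw [Fin.sum_univ_succ, Fin.sum_univ_succ]
    simp only [hk, Fin.cons_zero, Fin.cons_succ, add_smul]
    rw [Finset.sum_add_distrib, hB, ← hA]
    rw [Finset.sum_sub_distrib, Finset.sum_sub_distrib, Finset.sum_const, Finset.sum_const] at h
    obtain ⟨d, hd⟩ := Nat.exists_eq_add_of_le hc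
    rw [hd] at h ⊢
    rw [Nat.add_sub_cancel_left, one_smul]
    rw [add_smul] at h
    have : ∑ i ∈ T, g i.succ = ∑ i ∈ T', g i.succ + d • g 0 := by
      have h2 := sub_eq_iff_eq_add.mp h
      rw [h2]; abel
    rw [this]; abel
  have hk1 := hg k hsum hG
  ext i
  have hi := congrFun hk1 i.succ
  simp only [hk, Fin.cons_succ] at hi
  by_cases h1 : i ∈ T <;> by_cases h2 : i ∈ T' <;> simp_all

theorem lower {G : Type} [AddCommGroup G] [Finite G] {m : ℕ} (g : Fin (m + 1) → G)
    (hg : UniqueMultisetSums g) : 2 ^ m ≤ Nat.card G := by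
  have hinj : Function.Injective
      (fun T : Finset (Fin m) => ∑ i ∈ T, (g i.succ - g 0)) := by
    intro T T' h
    rcases le_total T'.card T.card with hc | hc
    · exact inj_aux g hg T T' hc h
    · exact (inj_aux g hg T' T hc h.symm).symm
  have := Nat.card_le_card_of_injective _ hinj
  simpa using this

theorem upper (m : ℕ) :
    UniqueMultisetSums
      (Fin.cons 0 (fun i => Pi.single i 1) : Fin (m + 1) → (Fin m → ZMod 2)) := by
  intro k hs hG
  have hodd : ∀ i : Fin m, k i.succ % 2 = 1 := by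
    intro i
    have h := congrFun hG i
    rw [Fin.sum_univ_succ, Fin.sum_univ_succ] at h
    simp only [Fin.cons_zero, Fin.cons_succ, smul_zero, zero_add, Finset.sum_apply,
      Pi.smul_apply, Pi.single_apply] at h
    simp only [smul_ite, smul_zero, Finset.sum_ite_eq, Finset.mem_univ, if_true] at h
    rw [nsmul_eq_mul, mul_one] at h
    have h2 : ((k i.succ : ℕ) : ZMod 2) = ((1 : ℕ) : ZMod 2) := by simpa using h
    exact (ZMod.natCast_eq_natCast_iff' _ _ 2).mp h2
  rw [Fin.sum_univ_succ] at hs
  have hone : ∀ i : Fin m, k i.succ = 1 := by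
    intro i
    by_contra hne
    have h3 : 3 ≤ k i.succ := by have := hodd i; omega
    have hge : ∀ j : Fin m, 1 + (if j = i then 2 else 0) ≤ k j.succ := by
      intro j
      have := hodd j
      split_ifs with hj
      · subst hj; omega
      · omega
    have := Finset.sum_le_sum (fun j (_ : j ∈ (Finset.univ : Finset (Fin m))) => hge j)
    rw [Finset.sum_add_distrib] at this
    simp at this
    omega
  have h0 : k 0 = 1 := by
    simp [hone] at hs
    omega
  funext j
  refine Fin.cases h0 hone j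

theorem result (n : ℕ) (hn : 1 ≤ n) :
    IsLeast {N : ℕ | ∃ (G : Type) (_ : AddCommGroup G) (_ : Finite G),
      Nat.card G = N ∧ ∃ g : Fin n → G, UniqueMultisetSums g} (2 ^ (n - 1)) := by
  obtain ⟨m, rfl⟩ : ∃ m, n = m + 1 := ⟨n - 1, by omega⟩
  rw [Nat.add_sub_cancel]
  constructor
  · refine ⟨Fin m → ZMod 2, inferInstance, inferInstance, ?_, _, upper m⟩
    simp
  · rintro N ⟨G, _, _, rfl, g, hg⟩
    exact lower g hg

end Pool.Agent.Results.MP_6623a1_co.ExactOrder
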